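import Mathlib
import Pool.Agent.Helper28.NT.Defs2

/-!
# NT: block L3, a point of the discriminant curve on the line `e 2 = 0` is constant
-/

set_option linter.unusedSectionVars false

namespace Pool.Agent.NT28

open Polynomial

universe u

section

variable {R : Type*} [CommRing R]

lemma qm_apply17 (Q : Fin 3 → Matrix (Fin 3) (Fin 3) R) (e : Fin 3 → R) (a b : Fin 3) :
    qm Q e a b = e 0 * Q 0 a b + e 1 * Q 1 a b + e 2 * Q 2 a b := by
  simp [qm, Fin.sum_univ_three, Matrix.add_apply]

lemma dl_smul17 (Q : Fin 3 → Matrix (Fin 3) (Fin 3) R) (c : R) (e : Fin 3 → R) :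
    dl Q (c • e) = c ^ 3 * dl Q e := by
  unfold dl
  rw [Matrix.det_fin_three, Matrix.det_fin_three]
  simp only [qm_apply17, Pi.smul_apply, smul_eq_mul]
  ring

lemma dl_hom17 {S : Type*} [CommRing S] (φ : R →+* S) (Q : Fin 3 → Matrix (Fin 3) (Fin 3) R)
    (e : Fin 3 → R) : φ (dl Q e) = dl (fun i => (Q i).map φ) (fun i => φ (e i)) := by
  unfold dl
  rw [Matrix.det_fin_three, Matrix.det_fin_three]
  simp only [qm_apply17, map_add, map_sub, map_mul, Matrix.map_apply]

lemma gr_diff17 (Q : Fin 3 → Matrix (Fin 3) (Fin 3) R) (e : Fin 3 → R) (i : Fin 3) :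
    12 * gr Q e i = 8 * (dl Q (Function.update e i (e i + 1)) - dl Q (Function.update e i (e i - 1))) -
      (dl Q (Function.update e i (e i + 2)) - dl Q (Function.update e i (e i - 2))) := by
  unfold gr dl
  rw [Matrix.det_fin_three, Matrix.det_fin_three, Matrix.det_fin_three, Matrix.det_fin_three,
    Matrix.adjugate_fin_three, Matrix.trace_fin_three]
  simp only [Matrix.mul_apply, Fin.sum_univ_three, qm_apply17, Matrix.of_apply, Matrix.cons_val',
    Matrix.cons_val_zero, Matrix.cons_val_one, Matrix.cons_val]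
  fin_cases i
  · simp [Function.update]
    ring
  · simp [Function.update]
    ring
  · simp [Function.update]
    ring

lemma dl_line17 (Q : Fin 3 → Matrix (Fin 3) (Fin 3) R) :
    6 * dl Q ![1, 0, 0] = dl Q ![3, 1, 0] - 3 * dl Q ![2, 1, 0] + 3 * dl Q ![1, 1, 0] -
      dl Q ![0, 1, 0] := by
  unfold dl
  simp only [Matrix.det_fin_three, qm_apply17, Matrix.cons_val_zero, Matrix.cons_val_one,
    Matrix.cons_val]
  ring

end

lemma ext_map17 {k L M : Type*} [Field k] [CommRing L] [Algebra k L] [CommRing M] [Algebra k M]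
    (φ : L →ₐ[k] M) (Q : Fin 3 → Matrix (Fin 3) (Fin 3) k) :
    (fun i => (ext L Q i).map (φ : L →+* M)) = ext M Q := by
  funext i
  ext a b
  simp [ext, Matrix.map_apply]

lemma dl_map17 {k L M : Type*} [Field k] [CommRing L] [Algebra k L] [CommRing M] [Algebra k M]
    (φ : L →ₐ[k] M) (Q : Fin 3 → Matrix (Fin 3) (Fin 3) k) (e : Fin 3 → L) :
    φ (dl (ext L Q) e) = dl (ext M Q) (fun i => φ (e i)) := by
  have h := dl_hom17 (φ : L →+* M) (ext L Q) e
  rw [ext_map17] at h
  exact h

lemma ext_self17 {k : Type*} [Field k] (Q : Fin 3 → Matrix (Fin 3) (Fin 3) k) : ext k Q = Q := by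
  funext i
  ext a b
  rfl

/-- The discriminant is not identically zero on the line `e 2 = 0`. -/
theorem line17 {k : Type u} [Field k] [IsAlgClosed k] [CharZero k]
    (Q : Fin 3 → Matrix (Fin 3) (Fin 3) k) (hQ : Smo Q)
    (h : ∀ t : k, dl Q ![t, 1, 0] = 0) : False := by
  have h0 : dl Q ![1, 0, 0] = 0 := by
    have h6 := dl_line17 Q
    rw [h, h, h, h] at h6
    have h7 : (6 : k) * dl Q ![1, 0, 0] = 0 := by rw [h6]; ring
    exact (mul_eq_zero.mp h7).resolve_left (by norm_num)
  have hab : ∀ a b : k, dl Q ![a, b, 0] = 0 := by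
    intro a b
    by_cases hb : b = 0
    · subst hb
      have e1 : (![a, 0, 0] : Fin 3 → k) = a • ![1, 0, 0] := by
        funext i
        fin_cases i <;> simp
      rw [e1, dl_smul17, h0, mul_zero]
    · have e1 : (![a, b, 0] : Fin 3 → k) = b • ![a / b, 1, 0] := by
        funext i
        fin_cases i <;> simp [mul_div_cancel₀, hb]
      rw [e1, dl_smul17, h, mul_zero]
  have g01 : ∀ a b : k, gr Q ![a, b, 0] 0 = 0 ∧ gr Q ![a, b, 0] 1 = 0 := by
    intro a b
    have u0 : ∀ c : k, Function.update (![a, b, 0] : Fin 3 → k) 0 c = ![c, b, 0] := by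
      intro c
      funext i
      fin_cases i <;> simp [Function.update]
    have u1 : ∀ c : k, Function.update (![a, b, 0] : Fin 3 → k) 1 c = ![a, c, 0] := by
      intro c
      funext i
      fin_cases i <;> simp [Function.update]
    have d0 := gr_diff17 Q ![a, b, 0] 0
    have d1 := gr_diff17 Q ![a, b, 0] 1
    simp only [u0, u1, hab, sub_self, mul_zero] at d0 d1
    exact ⟨(mul_eq_zero.mp d0).resolve_left (by norm_num),
      (mul_eq_zero.mp d1).resolve_left (by norm_num)⟩
  -- the third derivative has a zero on the line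
  let q : MvPolynomial (Fin 2) k := gr (ext (MvPolynomial (Fin 2) k) Q)
    ![MvPolynomial.X 0, MvPolynomial.X 1, 0] 2
  have hq : ∀ v : Fin 2 → k, MvPolynomial.eval v q = gr Q ![v 0, v 1, 0] 2 := by
    intro v
    have e12 : (12 : k) * MvPolynomial.eval v q = 12 * gr Q ![v 0, v 1, 0] 2 := by
      have h1 := congrArg (MvPolynomial.eval v) (gr_diff17 (ext (MvPolynomial (Fin 2) k) Q)
        ![MvPolynomial.X 0, MvPolynomial.X 1, 0] 2)
      rw [gr_diff17]
      have hd : ∀ e : Fin 3 → MvPolynomial (Fin 2) k, MvPolynomial.eval v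
          (dl (ext (MvPolynomial (Fin 2) k) Q) e) = dl Q (fun i => MvPolynomial.eval v (e i)) := by
        intro e
        have h2 := dl_map17 (MvPolynomial.aeval v : MvPolynomial (Fin 2) k →ₐ[k] k) Q e
        rw [ext_self17] at h2
        simpa [MvPolynomial.coe_aeval_eq_eval] using h2
      rw [map_mul, map_sub, map_mul, map_sub, map_sub, hd, hd, hd, hd] at h1
      have u2 : ∀ c : MvPolynomial (Fin 2) k, (fun i => MvPolynomial.eval v
          (Function.update (![MvPolynomial.X 0, MvPolynomial.X 1, 0] : Fin 3 → MvPolynomial (Fin 2) k)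
            2 c i)) = ![v 0, v 1, MvPolynomial.eval v c] := by
        intro c
        funext i
        fin_cases i <;> simp [Function.update]
      have u3 : ∀ c : k, Function.update (![v 0, v 1, 0] : Fin 3 → k) 2 c = ![v 0, v 1, c] := by
        intro c
        funext i
        fin_cases i <;> simp [Function.update]
      rw [u2, u2, u2, u2] at h1
      rw [u3, u3, u3, u3]
      simpa using h1
    exact mul_left_cancel₀ (by norm_num) e12
  obtain ⟨v, hv, hv0⟩ := Pool.Agent.Helper71.SE.exists_common_zero (r := 1) (ι := Fin 2)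
    (fun _ => q) (fun _ => by
      rw [hq]
      have hz : (![(0 : Fin 2 → k) 0, (0 : Fin 2 → k) 1, 0] : Fin 3 → k) = 0 := by
        funext i
        fin_cases i <;> rfl
      rw [hz]
      have hz2 : qm Q (0 : Fin 3 → k) = 0 := by
        ext a b
        rw [qm_apply17]
        simp
      unfold gr
      rw [hz2]
      simp) (by simp)
  have hv1 := hv0 0
  rw [hq] at hv1
  obtain ⟨i, hi⟩ := hQ.2 ![v 0, v 1, 0] (by
    intro h1
    apply hv
    funext i
    fin_cases i
    · exact congrFun h1 0
    · exact congrFun h1 1) (hab _ _)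
  fin_cases i
  · exact hi (g01 _ _).1
  · exact hi (g01 _ _).2
  · exact hi hv1

theorem l3 : StmtL3.{u} := by
  intro k L _ _ _ _ _ Q hQ e h2 hne hdl
  by_cases h1 : e 1 = 0
  · refine ⟨![1, 0, 0], e 0, ?_, ?_⟩
    · intro h
      exact one_ne_zero (congrFun h 0)
    · intro i
      fin_cases i
      · simp
      · simpa using h1
      · simpa using h2
  · set t : L := e 0 / e 1 with ht
    have he : e = e 1 • ![t, 1, 0] := by
      funext i
      fin_cases i
      · simp only [ht, Fin.zero_eta, Pi.smul_apply, Matrix.cons_val_zero, smul_eq_mul]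
        field_simp
      · simp
      · simpa using h2
    have h3 : dl (ext L Q) ![t, 1, 0] = 0 := by
      rw [he, dl_smul17] at hdl
      exact (mul_eq_zero.mp hdl).resolve_left (pow_ne_zero 3 h1)
    set f : k[X] := dl (ext k[X] Q) ![X, 1, 0] with hf
    have hev : ∀ {M : Type u} [Field M] [Algebra k M] (c : M), aeval c f = dl (ext M Q) ![c, 1, 0] := by
      intro M _ _ c
      rw [hf, dl_map17 (aeval c : k[X] →ₐ[k] M)]
      congr 1
      funext i
      fin_cases i <;> simp
    have hf0 : f ≠ 0 := by
      intro h0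
      refine line17 Q hQ fun c => ?_
      have h4 := hev (M := k) c
      rw [h0, map_zero, ext_self17] at h4
      exact h4.symm
    have halg : IsAlgebraic k t := ⟨f, hf0, by rw [hev, h3]⟩
    obtain ⟨c, hc⟩ : ∃ c : k, algebraMap k L c = t := by
      have hdeg := IsAlgClosed.degree_eq_one_of_irreducible k (minpoly.irreducible halg.isIntegral)
      exact minpoly.mem_range_of_degree_eq_one k t hdeg
    refine ⟨![c, 1, 0], e 1, ?_, ?_⟩
    · intro h
      exact one_ne_zero (congrFun h 1)
    · intro i
      have h5 := congrFun he i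
      rw [h5]
      fin_cases i
      · simp [hc]
      · simp
      · simp

end Pool.Agent.NT28
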