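import Mathlib
import Pool.Agent.Helper40.NT.L2
import Pool.Agent.Helper17.NT.L3

/-!
# NT: block G, a form which vanishes at the generic point vanishes on the discriminant curve
-/

set_option linter.unusedSectionVars false

namespace Pool.Agent.NT28

universe u

section hom

open MvPolynomial

variable {k : Type u} [Field k]

/-- homogenization in degree `m` -/
private noncomputable def hom17 (m : ℕ) (h : MvPolynomial (Fin 2) k) : MvPolynomial (Fin 3) k :=
  ∑ d ∈ h.support, C (h.coeff d) * (X 0 ^ d 0 * X 1 ^ d 1 * X 2 ^ (m - (d 0 + d 1)))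

private lemma hom_eval17 {m : ℕ} {h : MvPolynomial (Fin 2) k} (hm : h.totalDegree ≤ m)
    (e : Fin 3 → k) (he : e 2 ≠ 0) :
    eval e (hom17 m h) = e 2 ^ m * eval ![e 0 / e 2, e 1 / e 2] h := by
  unfold hom17
  rw [map_sum, eval_eq', Finset.mul_sum]
  apply Finset.sum_congr rfl
  intro d hd
  have hdeg : d 0 + d 1 ≤ m := by
    have h1 := (le_totalDegree hd).trans hm
    rw [Finsupp.sum_fintype _ _ (fun _ => rfl), Fin.sum_univ_two] at h1
    exact h1
  obtain ⟨j, hj⟩ := Nat.exists_eq_add_of_le hdeg
  simp only [map_mul, eval_C, map_pow, eval_X, Fin.prod_univ_two, Matrix.cons_val_zero,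
    Matrix.cons_val_one]
  have e1 : m - (d 0 + d 1) = j := by omega
  rw [e1, hj, div_pow, div_pow, pow_add, pow_add]
  field_simp

private lemma hom_zero17 {m : ℕ} (hm : 1 ≤ m) (h : MvPolynomial (Fin 2) k) :
    eval 0 (hom17 m h) = 0 := by
  unfold hom17
  rw [map_sum]
  apply Finset.sum_eq_zero
  intro d _
  simp only [map_mul, eval_C, map_pow, eval_X, Pi.zero_apply]
  by_cases h0 : d 0 = 0
  · by_cases h1 : d 1 = 0
    · rw [h0, h1, add_zero, Nat.sub_zero, zero_pow (by omega : m ≠ 0), mul_zero, mul_zero]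
    · rw [zero_pow h1, mul_zero, zero_mul, mul_zero]
  · rw [zero_pow h0, zero_mul, zero_mul, mul_zero]

private lemma hom_C17 (c : k) : hom17 0 (C c) = C c := by
  classical
  unfold hom17
  by_cases hc : c = 0
  · subst hc
    simp
  · have h1 : (C c : MvPolynomial (Fin 2) k).support = {0} := by
      rw [C_apply, support_monomial, if_neg hc]
    rw [h1, Finset.sum_singleton]
    simp

/-- A polynomial which vanishes off the line `X 2 = 0` is zero. -/
private lemma eq_of_off17 [Infinite k] {H H' : MvPolynomial (Fin 3) k}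
    (h : ∀ e : Fin 3 → k, e 2 ≠ 0 → eval e H = eval e H') : H = H' := by
  have h1 : (H - H') * X 2 = 0 := by
    apply MvPolynomial.funext
    intro e
    rw [map_mul, map_sub, eval_X, map_zero]
    by_cases he : e 2 = 0
    · rw [he, mul_zero]
    · rw [h e he, sub_self, zero_mul]
  exact sub_eq_zero.mp ((mul_eq_zero.mp h1).resolve_right (X_ne_zero _))

/-- the substitution `X 2 = 1` -/
private noncomputable def del17 : MvPolynomial (Fin 3) k →ₐ[k] MvPolynomial (Fin 2) k :=
  aeval ![X 0, X 1, 1]

private lemma del_eval17 (H : MvPolynomial (Fin 3) k) (a b : k) :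
    eval ![a, b] (del17 H) = eval ![a, b, 1] H := by
  have h1 : (aeval ![a, b] : MvPolynomial (Fin 2) k →ₐ[k] k).comp del17 = aeval ![a, b, 1] := by
    apply algHom_ext
    intro i
    unfold del17
    fin_cases i <;> simp
  have h2 := congrArg (fun f => f H) h1
  simpa [aeval_eq_eval] using h2

private lemma del_aeval17 {K : Type u} [Field K] [Algebra k K] (H : MvPolynomial (Fin 3) k)
    (x y : K) : aeval ![x, y] (del17 H) = aeval ![x, y, 1] H := by
  have h1 : (aeval ![x, y] : MvPolynomial (Fin 2) k →ₐ[k] K).comp del17 = aeval ![x, y, 1] := by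
    apply algHom_ext
    intro i
    unfold del17
    fin_cases i <;> simp
  exact congrArg (fun f => f H) h1

private lemma homog17 {H : MvPolynomial (Fin 3) k} {m : ℕ} (hH : H.IsHomogeneous m) (c : k)
    (e : Fin 3 → k) : eval (fun i => c * e i) H = c ^ m * eval e H := by
  rw [eval_eq', eval_eq', Finset.mul_sum]
  apply Finset.sum_congr rfl
  intro d hd
  have h1 : ∑ i, d i = m := by
    have := hH (mem_support_iff.mp hd)
    rw [Finsupp.weight_apply, Finsupp.sum_fintype _ _ (fun i => by simp)] at this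
    simpa using this
  simp only [mul_pow, Finset.prod_mul_distrib]
  rw [Finset.prod_pow_eq_pow_sum, h1]
  ring

private lemma off_del17 {H : MvPolynomial (Fin 3) k} {m : ℕ} (hH : H.IsHomogeneous m)
    (e : Fin 3 → k) (he : e 2 ≠ 0) :
    eval e H = e 2 ^ m * eval ![e 0 / e 2, e 1 / e 2] (del17 H) := by
  rw [del_eval17, ← homog17 hH]
  have h1 : (fun i => e 2 * (![e 0 / e 2, e 1 / e 2, 1] : Fin 3 → k) i) = e := by
    ext i
    fin_cases i
    · simp [mul_div_cancel₀ _ he]
    · simp [mul_div_cancel₀ _ he]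
    · simp
  rw [h1]

private lemma hom_mul17 [Infinite k] {H : MvPolynomial (Fin 3) k} {m₁ m₂ : ℕ}
    (hH : H.IsHomogeneous (m₁ + m₂)) {p q : MvPolynomial (Fin 2) k} (hp : p.totalDegree ≤ m₁)
    (hq : q.totalDegree ≤ m₂) (h : del17 H = p * q) : H = hom17 m₁ p * hom17 m₂ q := by
  apply eq_of_off17
  intro e he
  rw [map_mul, hom_eval17 hp e he, hom_eval17 hq e he, off_del17 hH e he, h, map_mul, pow_add]
  ring

private lemma del_ne17 [Infinite k] {H : MvPolynomial (Fin 3) k} {m : ℕ}
    (hH : H.IsHomogeneous m) (h : del17 H = 0) : H = 0 := by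
  apply eq_of_off17
  intro e he
  rw [off_del17 hH e he, h, map_zero, mul_zero, map_zero]

private lemma del_deg17 {H : MvPolynomial (Fin 3) k} {m : ℕ} (hH : H.IsHomogeneous m) :
    (del17 H).totalDegree ≤ m := by
  unfold del17
  rw [aeval_def, eval₂_eq']
  apply totalDegree_finsetSum_le
  intro d hd
  have h1 : ∑ i, d i = m := by
    have := hH (mem_support_iff.mp hd)
    rw [Finsupp.weight_apply, Finsupp.sum_fintype _ _ (fun i => by simp)] at this
    simpa using this
  rw [Fin.sum_univ_three] at h1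
  rw [Fin.prod_univ_three]
  simp only [Matrix.cons_val_zero, Matrix.cons_val_one, Matrix.cons_val, one_pow, mul_one]
  refine (totalDegree_mul _ _).trans ?_
  have h2 : (algebraMap k (MvPolynomial (Fin 2) k) (coeff d H)).totalDegree = 0 := by
    rw [algebraMap_eq]
    exact totalDegree_C _
  rw [h2, zero_add]
  refine (totalDegree_mul _ _).trans ?_
  have h3 : ∀ (i : Fin 2) (n : ℕ), ((X i : MvPolynomial (Fin 2) k) ^ n).totalDegree ≤ n := by
    intro i n
    refine (totalDegree_pow _ _).trans ?_
    rw [totalDegree_X, mul_one]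
  have h4 := h3 0 (d 0)
  have h5 := h3 1 (d 1)
  omega

/-- A prime ideal of `k[X, Y]` which is not maximal and contains a prime element is generated by it. -/
private lemma dim17 (J : Ideal (MvPolynomial (Fin 2) k)) [hJ : J.IsPrime] (hmax : ¬ J.IsMaximal)
    {p : MvPolynomial (Fin 2) k} (hp : Prime p) (hpJ : p ∈ J) : J = Ideal.span {p} := by
  by_contra hne
  have hle : Ideal.span {p} ≤ J := (Ideal.span_singleton_le_iff_mem _).mpr hpJ
  have hlt : Ideal.span {p} < J := lt_of_le_of_ne hle (fun h => hne h.symm)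
  have i1 : (Ideal.span {p} : Ideal (MvPolynomial (Fin 2) k)).IsPrime :=
    (Ideal.span_singleton_prime hp.ne_zero).mpr hp
  obtain ⟨M, hM, hJM⟩ := Ideal.exists_le_maximal J hJ.ne_top
  have i2 : M.IsPrime := hM.isPrime
  have hlt2 : J < M := lt_of_le_of_ne hJM (fun h => hmax (h ▸ hM))
  have i3 : (⊥ : Ideal (MvPolynomial (Fin 2) k)).IsPrime := Ideal.isPrime_bot
  have hlt0 : (⊥ : Ideal (MvPolynomial (Fin 2) k)) < Ideal.span {p} := by
    rw [bot_lt_iff_ne_bot, Ne, Ideal.span_singleton_eq_bot]
    exact hp.ne_zero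
  have a1 := Ideal.height_add_one_le_of_lt_of_isPrime hlt0
  have a2 := Ideal.height_add_one_le_of_lt_of_isPrime hlt
  have a3 := Ideal.height_add_one_le_of_lt_of_isPrime hlt2
  have hdim : ringKrullDim (MvPolynomial (Fin 2) k) = 2 := by
    rw [MvPolynomial.ringKrullDim_of_isNoetherianRing, ringKrullDim_eq_zero_of_field, zero_add]
    simp
  have a4 : (M.height : WithBot ℕ∞) ≤ 2 := by
    rw [← hdim]
    exact Ideal.height_le_ringKrullDim_of_ne_top hM.ne_top
  have a5 : M.height ≤ 2 := WithBot.coe_le_coe.mp a4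
  have a6 : (1 : ℕ∞) ≤ (Ideal.span {p} : Ideal (MvPolynomial (Fin 2) k)).height :=
    le_trans (by simp) a1
  have a7 : (2 : ℕ∞) ≤ J.height := le_trans (by
    calc (2 : ℕ∞) = 1 + 1 := by norm_num
      _ ≤ _ := add_le_add_left a6 1) a2
  have a8 : (3 : ℕ∞) ≤ M.height := le_trans (by
    calc (3 : ℕ∞) = 2 + 1 := by norm_num
      _ ≤ _ := add_le_add_left a7 1) a3
  have a9 : (3 : ℕ∞) ≤ 2 := a8.trans a5
  exact absurd a9 (by decide)

end hom

section main

open MvPolynomial

variable {k : Type u} [Field k] [IsAlgClosed k] [CharZero k]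

/-- the discriminant form -/
private noncomputable def dp17 (Q : Fin 3 → Matrix (Fin 3) (Fin 3) k) : MvPolynomial (Fin 3) k :=
  dl (ext (MvPolynomial (Fin 3) k) Q) X

private lemma dp_aeval17 (Q : Fin 3 → Matrix (Fin 3) (Fin 3) k) {L : Type u} [CommRing L]
    [Algebra k L] (e : Fin 3 → L) : aeval e (dp17 Q) = dl (ext L Q) e := by
  unfold dp17
  rw [dl_alg Q (aeval e : MvPolynomial (Fin 3) k →ₐ[k] L)]
  simp

private lemma dp_eval17 (Q : Fin 3 → Matrix (Fin 3) (Fin 3) k) (e : Fin 3 → k) :
    eval e (dp17 Q) = dl Q e := by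
  have h := dp_aeval17 Q e
  rw [ext_self17, aeval_eq_eval] at h
  exact h

private lemma dp_homog17 (Q : Fin 3 → Matrix (Fin 3) (Fin 3) k) : (dp17 Q).IsHomogeneous 3 := by
  unfold dp17 dl
  rw [Matrix.det_fin_three]
  have h1 : ∀ a b, (qm (ext (MvPolynomial (Fin 3) k) Q) X a b).IsHomogeneous 1 := by
    intro a b
    rw [qm_apply17]
    have h2 : ∀ i, ext (MvPolynomial (Fin 3) k) Q i a b = C (Q i a b) := fun i => rfl
    rw [h2, h2, h2]
    have h3 : ∀ i : Fin 3, (X i * C (Q i a b) : MvPolynomial (Fin 3) k).IsHomogeneous 1 := by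
      intro i
      exact (isHomogeneous_X k i).mul (isHomogeneous_C _ _)
    exact ((h3 0).add (h3 1)).add (h3 2)
  have h4 : ∀ a b c d e f, (qm (ext (MvPolynomial (Fin 3) k) Q) X a b *
      qm (ext (MvPolynomial (Fin 3) k) Q) X c d *
      qm (ext (MvPolynomial (Fin 3) k) Q) X e f).IsHomogeneous 3 := by
    intro a b c d e f
    exact ((h1 a b).mul (h1 c d)).mul (h1 e f)
  exact (((((h4 _ _ _ _ _ _).sub (h4 _ _ _ _ _ _)).sub (h4 _ _ _ _ _ _)).add
    (h4 _ _ _ _ _ _)).add (h4 _ _ _ _ _ _)).sub (h4 _ _ _ _ _ _)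

/-- A product decomposition with a common zero gives a singular point. -/
private lemma sing17 {Q : Fin 3 → Matrix (Fin 3) (Fin 3) k} (hQ : Smo Q)
    {P R : MvPolynomial (Fin 3) k} (h : dp17 Q = P * R) {e : Fin 3 → k} (he : e ≠ 0)
    (hP : eval e P = 0) (hR : eval e R = 0) : False := by
  have hd : dl Q e = 0 := by rw [← dp_eval17, h, map_mul, hP, zero_mul]
  obtain ⟨i, hi⟩ := hQ.2 e he hd
  apply hi
  -- the line through `e` in the direction of the `i`-th coordinate
  set c : Fin 3 → Polynomial k := fun j => Polynomial.C (e j) +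
    (if j = i then Polynomial.X else 0) with hc
  have h1 : dl (ext (Polynomial k) Q) c = aeval c P * aeval c R := by
    rw [← dp_aeval17, h, map_mul]
  have ev : ∀ H : MvPolynomial (Fin 3) k, Polynomial.eval 0 (aeval c H) = eval e H := by
    intro H
    have h2 : ((Polynomial.aeval (0 : k) : Polynomial k →ₐ[k] k).comp
        (aeval c : MvPolynomial (Fin 3) k →ₐ[k] Polynomial k)) = aeval e := by
      apply algHom_ext
      intro j
      rw [AlgHom.comp_apply, aeval_X, aeval_X, hc]
      by_cases hj : j = i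
      · simp [hj]
      · simp [hj]
    have h3 := congrArg (fun f => f H) h2
    simpa [aeval_eq_eval] using h3
  have h4 := dl_deriv (K := k) Q c
  rw [h1, Polynomial.derivative_mul] at h4
  have h5 := congrArg (Polynomial.eval 0) h4
  rw [Polynomial.eval_add, Polynomial.eval_mul, Polynomial.eval_mul, ev, ev, hP, hR, zero_mul,
    mul_zero, add_zero, Polynomial.eval_finsetSum] at h5
  have h6 : ∀ j, Polynomial.eval 0 (Polynomial.derivative (c j) * gr (ext (Polynomial k) Q) c j) =
      if j = i then gr Q e i else 0 := by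
    intro j
    by_cases hj : j = i
    · subst hj
      rw [if_pos rfl, Polynomial.eval_mul]
      have h7 : Polynomial.derivative (c j) = 1 := by
        rw [hc]
        simp
      have h8 : Polynomial.eval 0 (gr (ext (Polynomial k) Q) c j) = gr Q e j := by
        have h9 := gr_alg Q (Polynomial.aeval (0 : k) : Polynomial k →ₐ[k] k) c j
        rw [ext_self17] at h9
        have h10 : (fun l => (Polynomial.aeval (0 : k)) (c l)) = e := by
          funext l
          rw [hc]
          by_cases hl : l = j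
          · simp [hl]
          · simp [hl]
        rw [h10] at h9
        simpa using h9
      rw [h7, h8, Polynomial.eval_one, one_mul]
    · rw [if_neg hj]
      have h7 : Polynomial.derivative (c j) = 0 := by
        rw [hc]
        simp [hj]
      rw [h7, zero_mul, Polynomial.eval_zero]
  rw [Finset.sum_congr rfl (fun j _ => h6 j), Finset.sum_ite_eq' Finset.univ i,
    if_pos (Finset.mem_univ i)] at h5
  exact h5.symm

theorem g : StmtG.{u} := by
  intro k K _ _ _ _ _ Q hQ x y hxy hdl d G hG hGx e₀ he₀ hd₀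
  have hinf : Infinite k := inferInstance
  -- the prime ideal
  let J : Ideal (MvPolynomial (Fin 2) k) :=
    RingHom.ker (aeval ![x, y] : MvPolynomial (Fin 2) k →ₐ[k] K)
  have iJ : J.IsPrime := RingHom.ker_isPrime _
  have memJ : ∀ h : MvPolynomial (Fin 2) k, h ∈ J ↔ aeval ![x, y] h = 0 := fun h =>
    RingHom.mem_ker
  have hmax : ¬ J.IsMaximal := by
    intro hm
    obtain ⟨v, hv⟩ := isMaximal_iff_eq_vanishingIdeal_singleton.mp hm
    have h1 : ∀ i : Fin 2, (![x, y] : Fin 2 → K) i = algebraMap k K (v i) := by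
      intro i
      have h2 : (X i - C (v i) : MvPolynomial (Fin 2) k) ∈ J := by
        rw [hv, mem_vanishingIdeal_iff]
        intro w hw
        rw [Set.mem_singleton_iff.mp hw]
        simp
      rw [memJ, map_sub, aeval_X, aeval_C, sub_eq_zero] at h2
      exact h2
    rcases hxy with h | h
    · apply h
      have := h1 0
      rw [show x = algebraMap k K (v 0) from this]
      exact isAlgebraic_algebraMap _
    · apply h
      have := h1 1
      rw [show y = algebraMap k K (v 1) from this]
      exact isAlgebraic_algebraMap _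
  -- the discriminant form
  set f : MvPolynomial (Fin 2) k := del17 (dp17 Q) with hf
  have hfJ : f ∈ J := by
    rw [memJ, hf, del_aeval17, dp_aeval17]
    exact hdl
  have hF0 : dp17 Q ≠ 0 := by
    intro h0
    refine line17 Q hQ fun t => ?_
    rw [← dp_eval17, h0, map_zero]
  have hf0 : f ≠ 0 := fun h0 => hF0 (del_ne17 (dp_homog17 Q) h0)
  have hJ0 : J ≠ ⊥ := by
    intro h0
    rw [h0] at hfJ
    exact hf0 hfJ
  obtain ⟨p, hpJ, hp⟩ := iJ.exists_mem_prime_of_ne_bot hJ0
  have hJp := dim17 J hmax hp hpJ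
  have hdiv : ∀ h ∈ J, p ∣ h := by
    intro h hh
    rw [hJp] at hh
    exact Ideal.mem_span_singleton.mp hh
  obtain ⟨r, hr⟩ := hdiv f hfJ
  have hr0 : r ≠ 0 := by
    rintro rfl
    exact hf0 (by rw [hr, mul_zero])
  have hdegf : p.totalDegree + r.totalDegree ≤ 3 := by
    rw [← totalDegree_mul_of_isDomain hp.ne_zero hr0, ← hr]
    exact del_deg17 (dp_homog17 Q)
  have hdegp : 1 ≤ p.totalDegree := by
    by_contra hlt
    have h0 : p.totalDegree = 0 := by omega
    rw [totalDegree_eq_zero_iff_eq_C] at h0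
    have hc : coeff 0 p ≠ 0 := by
      intro hc
      rw [hc, C_0] at h0
      exact hp.ne_zero h0
    apply hp.not_isUnit
    rw [h0]
    exact (isUnit_iff_ne_zero.mpr hc).map C
  have hFP : dp17 Q = hom17 p.totalDegree p * hom17 (3 - p.totalDegree) r := by
    refine hom_mul17 ?_ le_rfl (by omega) hr
    have h1 : p.totalDegree + (3 - p.totalDegree) = 3 := by omega
    rw [h1]
    exact dp_homog17 Q
  by_cases h3 : 3 - p.totalDegree = 0
  · -- the form is irreducible
    have hr1 : r.totalDegree = 0 := by omega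
    rw [totalDegree_eq_zero_iff_eq_C] at hr1
    rw [h3, hr1, hom_C17] at hFP
    have hc : coeff 0 r ≠ 0 := by
      intro hc
      rw [hc, C_0] at hr1
      exact hr0 hr1
    have hP0 : eval e₀ (hom17 p.totalDegree p) = 0 := by
      have h4 : eval e₀ (dp17 Q) = 0 := by rw [dp_eval17, hd₀]
      rw [hFP, map_mul, eval_C] at h4
      exact (mul_eq_zero.mp h4).resolve_right hc
    have hGJ : del17 G ∈ J := by
      rw [memJ, del_aeval17]
      exact hGx
    obtain ⟨q, hq⟩ := hdiv _ hGJ
    by_cases hq0 : q = 0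
    · rw [hq0, mul_zero] at hq
      rw [del_ne17 hG hq, map_zero]
    · have h5 : p.totalDegree + q.totalDegree ≤ d := by
        rw [← totalDegree_mul_of_isDomain hp.ne_zero hq0, ← hq]
        exact del_deg17 hG
      have hGP : G = hom17 p.totalDegree p * hom17 (d - p.totalDegree) q := by
        refine hom_mul17 ?_ le_rfl (by omega) hq
        have h1 : p.totalDegree + (d - p.totalDegree) = d := by omega
        rw [h1]
        exact hG
      rw [hGP, map_mul, hP0, zero_mul]
  · -- two factors have a common zero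
    exfalso
    obtain ⟨e, he, hz⟩ := Pool.Agent.Helper71.SE.exists_common_zero (ι := Fin 3)
      ![hom17 p.totalDegree p, hom17 (3 - p.totalDegree) r] (fun j => by
        fin_cases j
        · exact hom_zero17 hdegp p
        · exact hom_zero17 (by omega) r) (by simp)
    exact sing17 hQ hFP he (hz 0) (hz 1)

end main

end Pool.Agent.NT28
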