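import Mathlib
import Pool.Agent.Helper17.NT.G
import Pool.Agent.Helper15.GT.ExtQ

/-!
# NT: block P4, every point of the discriminant curve is the center of a place
-/

set_option linter.unusedSectionVars false

namespace Pool.Agent.NT28

open VC VF Function Pool.Agent.Helper21.TO Pool.Agent.Helper15.GT

universe u

theorem p4 {k K : Type u} [Field k] [IsAlgClosed k] [CharZero k] [Field K] [Algebra k K]
    (hK : IsFunctionField k K) {Q : Fin 3 → Matrix (Fin 3) (Fin 3) k} (hQ : Smo Q) (x y : K)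
    (hxy : ¬ IsAlgebraic k x ∨ ¬ IsAlgebraic k y) (hd : dl (ext K Q) ![x, y, 1] = 0)
    (e₀ : Fin 3 → k) (h0 : e₀ ≠ 0) (hd0 : dl Q e₀ = 0) :
    ∃ (P : Place k K) (c : K), c ≠ 0 ∧ ∀ i, IsRes P (c * (![x, y, 1] : Fin 3 → K) i) (e₀ i) := by
  set ξ : Fin 3 → K := ![x, y, 1] with hξ
  have hs : Sat (van k ξ) e₀ := by
    intro G hG n hGn
    have h1 := g k K Q hQ x y hxy hd n G hGn hG e₀ h0 hd0
    rwa [← MvPolynomial.aeval_eq_eval] at h1
  obtain ⟨j, hj⟩ := Function.ne_iff.mp h0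
  have hj' : e₀ j ≠ 0 := hj
  obtain ⟨hξj, χ, hχ⟩ := exists_homK ξ e₀ hs j hj'
  obtain ⟨w, hw⟩ := exists_rpl (Algebra.adjoin k (Set.range fun i => ξ i / ξ j)) χ
  refine ⟨w.pl hK (AlgHom.id k K), algebraMap k K (e₀ j) * (ξ j)⁻¹, ?_, fun i => ?_⟩
  · exact mul_ne_zero ((_root_.map_ne_zero _).mpr hj') (inv_ne_zero hξj)
  · rw [isRes_pl]
    have hi : ξ i / ξ j ∈ Algebra.adjoin k (Set.range fun i => ξ i / ξ j) :=
      Algebra.subset_adjoin ⟨i, rfl⟩
    have h1 := hw ⟨ξ i / ξ j, hi⟩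
    rw [hχ i hi] at h1
    have h2 : Rs w (algebraMap k K (e₀ j) * (ξ i / ξ j)) (e₀ j * (e₀ i / e₀ j)) :=
      (rs_const (e₀ j)).mul h1
    rw [mul_div_cancel₀ _ hj'] at h2
    have h3 : (AlgHom.id k K) (algebraMap k K (e₀ j) * (ξ j)⁻¹ * ξ i) =
        algebraMap k K (e₀ j) * (ξ i / ξ j) := by
      rw [AlgHom.id_apply, div_eq_mul_inv]
      ring
    rw [h3]
    exact h2

end Pool.Agent.NT28
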